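import Pool.Agent.H14.NF.Base
import Pool.Agent.H29.T1.POSb
import Pool.Agent.H8.NF.F

/-!
# NF: data and assembly: statements
-/

set_option autoImplicit false

namespace Pool.NF

open Polynomial NumberField IsDedekindDomain Pool.HYP Pool.TOW Pool.AVS Pool.T1

section Defs

variable {K : Type} [Field K]

/-- The elliptic curve `y² = x³ + a x² + b x + c`. -/
noncomputable def WE (f : K[X]) : WeierstrassCurve K := ⟨0, f.coeff 2, 0, f.coeff 1, f.coeff 0⟩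

/-- The group of the points of `y² = f(x)` is finite of odd order. -/
def FinOdd (f : K[X]) : Prop :=
  Finite (WE f).toAffine.Point ∧ Odd (Nat.card (WE f).toAffine.Point)

end Defs

/-- TWSN: the twisting elements (from RAY and TWS of 87, `m = 8`). -/
def TWSNStmt : Prop :=
  ∀ (K : Type) [Field K] [NumberField K], ∃ B : Finset (HeightOneSpectrum (𝓞 K)),
    ∀ T' : Finset (HeightOneSpectrum (𝓞 K)), B ⊆ T' →
    (∀ P : HeightOneSpectrum (𝓞 K), (2 : 𝓞 K) ∈ P.asIdeal → P ∈ T') →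
    ∀ T : Finset (HeightOneSpectrum (𝓞 K)), Disjoint T T' → ∃ E : ℕ, 1 ≤ E ∧
      ∀ S ⊆ T, ∃ d ∈ Bx K (E : ℝ), TwiN T T' S d

/-- EXDN: existence of the data.  (As EXDA, EXDB of T1, `H91/T1`; there are infinitely many primes,
and finitely many of norm at most `b` by PRZ.) -/
def EXDNStmt : Prop :=
  ∀ (K : Type) [Field K] [NumberField K] (T' : Finset (HeightOneSpectrum (𝓞 K))),
    (∀ P : HeightOneSpectrum (𝓞 K), (2 : 𝓞 K) ∈ P.asIdeal ∨ (3 : 𝓞 K) ∈ P.asIdeal → P ∈ T') →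
    ∀ k b : ℕ, ∃ D : DatN K, D.Ok ∧ D.T' = T' ∧ D.T.card = k ∧ ∀ P ∈ D.T, b < Nm P

/-- IRRN: the polynomials of the family are irreducible.  (`T'` contains a prime above two;
`irr_of_md` of 94.) -/
def IRRNStmt : Prop :=
  ∀ (K : Type) [Field K] [NumberField K] (D : DatN K) (Y : ℕ), D.Ok → ∀ f ∈ FamN D Y,
    Irreducible (fk K f)

/-- TWFN: the twists of the polynomials of the family. -/
def TWFNStmt : Prop :=
  ∀ (K : Type) [Field K] [NumberField K] (D : DatN K) (Y E : ℕ) (d : 𝓞 K), 1 ≤ E →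
    d ∈ Bx K (E : ℝ) → ∀ f ∈ FamN D Y, f.scaleRoots d ∈ AllN K (2 * E * Y : ℝ)

/-- ALLN: the number of all polynomials.  (`AllN K Y` is `Bx Y × Bx Y² × Bx Y³`; BXU, BXL.) -/
def ALLNStmt : Prop :=
  ∀ (K : Type) [Field K] [NumberField K], ∃ c C : ℝ, 0 < c ∧ 0 < C ∧ ∀ Y : ℝ, 1 ≤ Y →
    (AllN K Y).Finite ∧ c * Y ^ (6 * dg K) ≤ (AllN K Y).ncard ∧
    ((AllN K Y).ncard : ℝ) ≤ C * Y ^ (6 * dg K) ∧
    0 < {f ∈ AllN K Y | f.coeff 2 = 0}.ncard ∧
    ({f ∈ AllN K Y | f.coeff 2 = 0}.ncard : ℝ) ≤ C * Y ^ (5 * dg K) ∧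
    (Bx K Y).Finite ∧ ((Bx K Y).ncard : ℝ) ≤ C * Y ^ dg K

/-- SQSN: scaling of the roots by a square does not change the curve.  (`y² = e⁶ f(x/e²)`; for `u`, `w`
take `u(e² x) / e^(2 deg u)` and `w(e² x) / e^n`; as TWSK of T1.) -/
def SQSNStmt : Prop :=
  ∀ (K : Type) [Field K] (f : K[X]) (e : K), f.Monic → e ≠ 0 →
    (SelK (f.scaleRoots (e ^ 2)) ↔ SelK f)

/-- ZERN: the equations with `a_1 = 0`.  (`τ f = (f.scaleRoots 9)(x - 3 a_1)` has `a_1 = 0` and is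
in `AllN (11 Y)`; `f` is determined by `τ f` and `a_1`; SQSN, TRAK of T1, ALLN.) -/
def ZERNStmt : Prop :=
  ∀ (K : Type) [Field K] [NumberField K], PosN K → PosZN K

/-- POSN: a positive proportion, from the parts (helper29). -/
def POSNStmt : Prop :=
  ∀ (K : Type) [Field K] [NumberField K], (∃ A, DenN K A) → BadN K → (∃ c : ℝ, FamLN K c) →
    (∃ Ram, OneN K Ram) → PosN K

/-- The main theorem: a positive proportion of all elliptic curves over the number field `K` has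
trivial 2-Selmer group and finitely many points. -/
def MainN : Prop :=
  ∀ (K : Type) [Field K] [NumberField K], ∃ δ : ℝ, 0 < δ ∧ ∃ Y₀ : ℝ, ∀ Y : ℝ, Y₀ ≤ Y →
    (AllN K Y).Finite ∧ 0 < (AllN K Y).ncard ∧
    δ * (AllN K Y).ncard ≤
      {f ∈ AllN K Y | Irreducible (fk K f) ∧ SelK (fk K f) ∧ FinOdd (fk K f)}.ncard ∧
    0 < {f ∈ AllN K Y | f.coeff 2 = 0}.ncard ∧
    δ * {f ∈ AllN K Y | f.coeff 2 = 0}.ncard ≤
      {f ∈ AllN K Y | f.coeff 2 = 0 ∧ Irreducible (fk K f) ∧ SelK (fk K f) ∧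
        FinOdd (fk K f)}.ncard

end Pool.NF
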