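import Pool.Agent.H29.NF.A
import Pool.Agent.H8.NF.FINN
import Pool.Agent.H5.NF.GRPN
import Pool.Agent.H94.NF.DENN
import Pool.Agent.H94.NF.FAML
import Pool.Agent.H33.NF.K
import Pool.Agent.H41.NF.Bad
import Pool.Agent.H46.NF.L

/-!
# NF, row MAINN: the main theorem, from the parts
-/

set_option autoImplicit false

namespace Pool.NF

open Polynomial NumberField IsDedekindDomain Pool.HYP Pool.TOW Pool.AVS Pool.T1

/-- A monic cubic polynomial from its coefficients. -/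
theorem cubic_eq {K : Type} [Field K] {f : K[X]} (hf : f.Monic) (hd : f.natDegree = 3) :
    f = X ^ 3 + C (f.coeff 2) * X ^ 2 + C (f.coeff 1) * X + C (f.coeff 0) := by
  have h3 : f.coeff 3 = 1 := by
    have := hf.coeff_natDegree
    rwa [hd] at this
  conv_lhs => rw [f.as_sum_range_C_mul_X_pow, hd]
  simp only [Finset.sum_range_succ, Finset.sum_range_zero, h3, map_one]
  ring

theorem finOdd_of {K : Type} [Field K] [NumberField K] {f : K[X]} (hf : f.Monic)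
    (hd : f.natDegree = 3) (hi : Irreducible f) (hs : SelK f) : FinOdd f := by
  have h1 := cubic_eq hf hd
  set a := f.coeff 2 with ha
  set b := f.coeff 1 with hb
  set c := f.coeff 0 with hc
  have hi' : Irreducible (X ^ 3 + C a * X ^ 2 + C b * X + C c : K[X]) := h1 ▸ hi
  have hs' : SelK (X ^ 3 + C a * X ^ 2 + C b * X + C c : K[X]) := h1 ▸ hs
  exact grp_gen two_ne_zero a b c hi' (finn K a b c hi' hs')

theorem mainn (hKEY : KEYNStmt) (hNST : NSTStmt) (hNCNT : NCNTStmt) (hBAD : BADNStmt)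
    (hDEN : ∀ (K : Type) [Field K] [NumberField K], ∃ A, DenN K A)
    (hFAM : ∀ (K : Type) [Field K] [NumberField K], ∃ c : ℝ, FamLN K c) (hONE : ONENStmt)
    (hREC : ∀ (K : Type) [Field K] [NumberField K],
      ∃ Ram : Finset (HeightOneSpectrum (𝓞 K)), RecN (K := K) Ram)
    (hPOS : POSNStmt) (hZER : ZERNStmt) (hIRR : IRRNStmt) : MainN := by
  intro K _ _
  have hirr : ∀ (D : DatN K) (Y : ℕ), D.Ok → ∀ f ∈ FamN D Y, Irreducible (fk K f) := hIRR K
  obtain ⟨B, hB⟩ := hKEY K hirr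
  have hbad : BadN K := hBAD hNST hNCNT K ⟨B, hB B le_rfl⟩ (hFAM K) hirr
  obtain ⟨Ram, hRam⟩ := hREC K
  have hpos : PosN K := hPOS K (hDEN K) hbad (hFAM K) ⟨Ram, hONE K Ram hRam⟩
  obtain ⟨δ₁, hδ₁, Y₁, h1⟩ := hpos
  obtain ⟨δ₂, hδ₂, Y₂, h2⟩ := hZER K ⟨δ₁, hδ₁, Y₁, h1⟩
  have hfo : ∀ (Y : ℝ) (f : (𝓞 K)[X]), f ∈ AllN K Y → SelK (fk K f) → Irreducible (fk K f) →
      FinOdd (fk K f) := by
    intro Y f hf hs hi
    have hd : (fk K f).natDegree = 3 := by
      rw [fk, hf.1.natDegree_map, hf.2.1]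
    exact finOdd_of (hf.1.map _) hd hi hs
  refine ⟨min δ₁ δ₂, lt_min hδ₁ hδ₂, max Y₁ Y₂, fun Y hY => ?_⟩
  obtain ⟨hfin, hp, h3⟩ := h1 Y ((le_max_left _ _).trans hY)
  obtain ⟨hp', h4⟩ := h2 Y ((le_max_right _ _).trans hY)
  refine ⟨hfin, hp, ?_, hp', ?_⟩
  · calc min δ₁ δ₂ * (AllN K Y).ncard ≤ δ₁ * (AllN K Y).ncard :=
          mul_le_mul_of_nonneg_right (min_le_left _ _) (Nat.cast_nonneg _)
      _ ≤ _ := h3
      _ ≤ _ := by
          have : {f ∈ AllN K Y | SelK (fk K f) ∧ Irreducible (fk K f)}.ncard ≤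
              {f ∈ AllN K Y | Irreducible (fk K f) ∧ SelK (fk K f) ∧ FinOdd (fk K f)}.ncard :=
            Set.ncard_le_ncard (fun f hf => ⟨hf.1, hf.2.2, hf.2.1, hfo Y f hf.1 hf.2.1 hf.2.2⟩)
              (hfin.subset fun f hf => hf.1)
          exact_mod_cast this
  · calc min δ₁ δ₂ * {f ∈ AllN K Y | f.coeff 2 = 0}.ncard ≤
          δ₂ * {f ∈ AllN K Y | f.coeff 2 = 0}.ncard :=
          mul_le_mul_of_nonneg_right (min_le_right _ _) (Nat.cast_nonneg _)
      _ ≤ _ := h4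
      _ ≤ _ := by
          have : {f ∈ AllN K Y | f.coeff 2 = 0 ∧ SelK (fk K f) ∧ Irreducible (fk K f)}.ncard ≤
              {f ∈ AllN K Y | f.coeff 2 = 0 ∧ Irreducible (fk K f) ∧ SelK (fk K f) ∧
                FinOdd (fk K f)}.ncard :=
            Set.ncard_le_ncard (fun f hf => ⟨hf.1, hf.2.1, hf.2.2.2, hf.2.2.1,
              hfo Y f hf.1 hf.2.2.1 hf.2.2.2⟩) (hfin.subset fun f hf => hf.1)
          exact_mod_cast this

end Pool.NF
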