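import Pool.Agent.H85.NF.PRZ

/-!
# NF, row PRS: the sum over the large primes of the inverse squares of the norms is small
-/

set_option autoImplicit false

namespace Pool.NF

open NumberField IsDedekindDomain

private theorem ni_eq (K : Type) [Field K] [NumberField K] (I : Ideal (𝓞 K)) :
    Ni I = Ideal.absNorm I := by
  rw [Ni, Ideal.absNorm_apply, Submodule.cardQuot_apply]

private theorem prz_fiber (K : Type) [Field K] [NumberField K] (p : ℕ) (hp : p.Prime)
    (S : Finset (HeightOneSpectrum (𝓞 K))) (hS : ∀ P ∈ S, (p : 𝓞 K) ∈ P.asIdeal) :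
    S.card ≤ dg K := by
  classical
  have h1 : ∏ P ∈ S, P.asIdeal ∣ Ideal.span {(p : 𝓞 K)} := by
    refine Finset.prod_dvd_of_coprime ?_ ?_
    · intro P _ Q _ hPQ
      have : P.asIdeal ≠ Q.asIdeal := fun h => hPQ (HeightOneSpectrum.ext h)
      exact Ideal.isCoprime_iff_sup_eq.2 (Ideal.IsMaximal.coprime_of_ne P.isMaximal Q.isMaximal this)
    · intro P hP
      rw [Ideal.dvd_iff_le, Ideal.span_singleton_le_iff_mem]
      exact hS P hP
  have hn : Ideal.absNorm (Ideal.span {(p : 𝓞 K)}) = p ^ dg K := by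
    rw [Ideal.absNorm_span_singleton]
    rw [Algebra.norm_natCast, RingOfIntegers.rank]
    simp [Int.natAbs_pow]
  have h2 : ∏ P ∈ S, Ideal.absNorm P.asIdeal ∣ p ^ dg K := by
    rw [← hn, ← map_prod]
    exact map_dvd _ h1
  have h3 : p ^ S.card ∣ ∏ P ∈ S, Ideal.absNorm P.asIdeal := by
    rw [← Finset.prod_const]
    refine Finset.prod_dvd_prod_of_dvd _ _ fun P hP => ?_
    have hd : Ideal.absNorm P.asIdeal ∣ p ^ dg K := (Finset.dvd_prod_of_mem _ hP).trans h2
    obtain ⟨k, hk, hk'⟩ := (Nat.dvd_prime_pow hp).1 hd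
    rw [hk']
    refine dvd_pow_self _ ?_
    rintro rfl
    exact P.isPrime.ne_top (Ideal.absNorm_eq_one_iff.1 (by simpa using hk'))
  exact (Nat.pow_dvd_pow_iff_le_right hp.one_lt).1 (h3.trans h2)

private theorem prz_ex (K : Type) [Field K] [NumberField K] (P : HeightOneSpectrum (𝓞 K)) :
    ∃ p : ℕ, p.Prime ∧ (p : 𝓞 K) ∈ P.asIdeal ∧ p ≤ Ni P.asIdeal := by
  have h0 : Ni P.asIdeal ≠ 0 := by
    rw [ni_eq]
    exact fun h => P.ne_bot (Ideal.absNorm_eq_zero_iff.1 h)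
  have h1 : (∏ p ∈ (Ni P.asIdeal).primeFactorsList.toFinset, (1 : ℕ)) = 1 := by simp
  have hm : ((Ni P.asIdeal : ℕ) : 𝓞 K) ∈ P.asIdeal := by
    rw [ni_eq]
    exact Ideal.absNorm_mem P.asIdeal
  have key : ∀ m : ℕ, m ≠ 0 → ((m : ℕ) : 𝓞 K) ∈ P.asIdeal →
      ∃ p : ℕ, p.Prime ∧ (p : 𝓞 K) ∈ P.asIdeal ∧ p ∣ m := by
    intro m
    induction m using Nat.strong_induction_on with
    | _ m ih =>
      intro hm0 hmm
      by_cases h : m = 1
      · subst h
        exact absurd (Ideal.eq_top_of_isUnit_mem _ hmm (by simp)) P.isPrime.ne_top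
      · have hmf := Nat.minFac_prime h
        obtain ⟨k, hk⟩ := Nat.minFac_dvd m
        rw [hk, Nat.cast_mul] at hmm
        rcases P.isPrime.mem_or_mem hmm with h' | h'
        · exact ⟨_, hmf, h', Nat.minFac_dvd m⟩
        · have hk0 : k ≠ 0 := by
            rintro rfl
            simp at hk
            exact hm0 hk
          have hlt : k < m := by
            have h2 := hmf.two_le
            calc k < 2 * k := by omega
              _ ≤ m.minFac * k := Nat.mul_le_mul_right _ h2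
              _ = m := hk.symm
          obtain ⟨p, hp, hpP, hpk⟩ := ih k hlt hk0 h'
          exact ⟨p, hp, hpP, hpk.trans ⟨_, by rw [mul_comm]; exact hk⟩⟩
  obtain ⟨p, hp, hpP, hpd⟩ := key _ h0 hm
  exact ⟨p, hp, hpP, Nat.le_of_dvd (Nat.pos_of_ne_zero h0) hpd⟩


private theorem prs_sum (K : Type) [Field K] [NumberField K]
    (S : Finset (HeightOneSpectrum (𝓞 K))) :
    ∑ P ∈ S, ((Ni P.asIdeal : ℝ) ^ 2)⁻¹ ≤ dg K * ∑' m : ℕ, ((m : ℝ) ^ 2)⁻¹ := by
  classical
  choose f hf1 hf2 hf3 using prz_ex K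
  have hs : Summable fun m : ℕ => ((m : ℝ) ^ 2)⁻¹ :=
    Real.summable_nat_pow_inv.2 (by norm_num)
  calc ∑ P ∈ S, ((Ni P.asIdeal : ℝ) ^ 2)⁻¹ ≤ ∑ P ∈ S, ((f P : ℝ) ^ 2)⁻¹ := by
        refine Finset.sum_le_sum fun P _ => ?_
        have h1 : (0 : ℝ) < f P := by exact_mod_cast (hf1 P).pos
        have h2 : (f P : ℝ) ≤ Ni P.asIdeal := by exact_mod_cast hf3 P
        exact inv_anti₀ (by positivity) (pow_le_pow_left₀ h1.le h2 2)
    _ = ∑ p ∈ S.image f, ∑ P ∈ S with f P = p, ((f P : ℝ) ^ 2)⁻¹ := by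
        rw [Finset.sum_fiberwise_of_maps_to]
        exact fun P hP => Finset.mem_image_of_mem f hP
    _ ≤ ∑ p ∈ S.image f, (dg K : ℝ) * ((p : ℝ) ^ 2)⁻¹ := by
        refine Finset.sum_le_sum fun p hp => ?_
        obtain ⟨P₀, hP₀, hpP⟩ := Finset.mem_image.1 hp
        have hpp : p.Prime := hpP ▸ hf1 P₀
        have h3 : ∑ P ∈ S with f P = p, ((f P : ℝ) ^ 2)⁻¹ =
            (S.filter fun P => f P = p).card * ((p : ℝ) ^ 2)⁻¹ := by
          rw [← nsmul_eq_mul, ← Finset.sum_const]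
          refine Finset.sum_congr rfl fun P hP => ?_
          rw [(Finset.mem_filter.1 hP).2]
        rw [h3]
        refine mul_le_mul_of_nonneg_right ?_ (by positivity)
        have h4 : (S.filter fun P => f P = p).card ≤ dg K := by
          refine prz_fiber K p hpp _ fun Q hQ => ?_
          have := hf2 Q
          rwa [(Finset.mem_filter.1 hQ).2] at this
        exact_mod_cast h4
    _ = dg K * ∑ p ∈ S.image f, ((p : ℝ) ^ 2)⁻¹ := by rw [Finset.mul_sum]
    _ ≤ dg K * ∑' m : ℕ, ((m : ℝ) ^ 2)⁻¹ :=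
        mul_le_mul_of_nonneg_left (hs.sum_le_tsum _ fun _ _ => by positivity) (Nat.cast_nonneg _)

theorem prs : PRSStmt := by
  classical
  intro K _ _ ε hε
  have hsum : Summable fun P : HeightOneSpectrum (𝓞 K) => ((Ni P.asIdeal : ℝ) ^ 2)⁻¹ :=
    summable_of_sum_le (fun _ => by positivity) (prs_sum K)
  obtain ⟨s₀, hs₀⟩ := summable_iff_vanishing_norm.1 hsum ε hε
  refine ⟨∑ P ∈ s₀, (Ni P.asIdeal : ℝ), fun S hS => ?_⟩
  have hdis : Disjoint S s₀ := by
    rw [Finset.disjoint_left]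
    intro P hP hP0
    have h1 := hS P hP
    have h2 : (Ni P.asIdeal : ℝ) ≤ ∑ P ∈ s₀, (Ni P.asIdeal : ℝ) :=
      Finset.single_le_sum (f := fun P : HeightOneSpectrum (𝓞 K) => (Ni P.asIdeal : ℝ))
        (fun _ _ => Nat.cast_nonneg _) hP0
    linarith
  have h3 := hs₀ S hdis
  rw [Real.norm_eq_abs] at h3
  exact (le_abs_self _).trans h3.le

end Pool.NF
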