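import Pool.Agent.H29.NF.POSN
import Pool.Agent.H29.NF.MAINN
import Pool.Agent.H29.NF.FFG
import Pool.Agent.H12.NF.INFN
import Pool.Agent.H14.NF.RECAN
import Pool.Agent.H17.NF.MkN2
import Pool.Agent.H18.NF.NST
import Pool.Agent.H18.NF.NUU
import Pool.Agent.H19.NF.IRRN
import Pool.Agent.H2.NF.ALLN
import Pool.Agent.H2.NF.RCLZ
import Pool.Agent.H2.NF.SEMCN
import Pool.Agent.H2.NF.SQSN
import Pool.Agent.H22.NF.NSU
import Pool.Agent.H24.NF.CF
import Pool.Agent.H25.NF.ISO2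
import Pool.Agent.H25.NF.LSR
import Pool.Agent.H3.NF.BDPN
import Pool.Agent.H3.NF.NAD
import Pool.Agent.H30.NF.IRUN
import Pool.Agent.H31.NF.PT3
import Pool.Agent.H33.NF.ARR
import Pool.Agent.H33.NF.LGR
import Pool.Agent.H36.NF.LDTN
import Pool.Agent.H46.NF.BXL
import Pool.Agent.H46.NF.BXU
import Pool.Agent.H46.NF.NRM
import Pool.Agent.H49.NF.LBQ
import Pool.Agent.H50.NF.NCNT
import Pool.Agent.H50.NF.NCO
import Pool.Agent.H50.NF.RCPN
import Pool.Agent.H51.NF.EBN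
import Pool.Agent.H51.NF.RTB
import Pool.Agent.H54.NF.IZV
import Pool.Agent.H67.NF.BDRN
import Pool.Agent.H70.NF.EXDN
import Pool.Agent.H70.NF.GDUN
import Pool.Agent.H73.NF.DS3
import Pool.Agent.H76.NF.ZERN
import Pool.Agent.H77.NF.CMPN
import Pool.Agent.H77.NF.LDPN
import Pool.Agent.H85.NF.QAll
import Pool.Agent.H85.NF.PRZ
import Pool.Agent.H85.NF.TWFN
import Pool.Agent.H87.NF.TWSN
import Pool.Agent.H88.NF.BASN
import Pool.Agent.H88.NF.SEMAN
import Pool.Agent.H88.NF.SEMBN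
import Pool.Agent.H90.NF.CMP2
import Pool.Agent.H90.NF.KEYN
import Pool.Agent.H90.NF.NPM
import Pool.Agent.H90.NF.NPT
import Pool.Agent.H90.NF.ONEN
import Pool.Agent.H94.NF.BADN
import Pool.Agent.H94.NF.SV3
import Pool.Agent.H29.NF.PRS
import Pool.Agent.H46.NF.MUL
import Pool.Agent.H61.NF.IRL2
import Pool.Agent.H80.NF.L2MD
import Pool.Agent.H80.NF.L2T
import Pool.Agent.H94.NF.DENN
import Pool.Agent.H94.NF.FAML

/-!
# NF: assembly
-/

set_option autoImplicit false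

namespace Pool.NF.All

open Pool.NF Pool.T1

theorem h_infn : INFNStmt := infn (arc lgr) (arr lgr) rtb
theorem h_keyn : KEYNStmt := keyn lattk h_infn mkn ebn nrm
theorem h_ncnt : NCNTStmt :=
  ncnt (npm bxu) (npt bxu) (nuu bxu bxl) nco (nad nrm) nro nsu nfi
theorem h_cfu : CFUStmt := CF.cfu bxu
theorem h_cfl : CFLStmt := CF.cfl bxl
theorem h_sv3 : SV3Stmt := sv3 (sg3 pt3) (db3 (ds3 pt3) nrm) h_cfu h_cfl prs prz nrm
theorem h_denn : DENNStmt := denn h_sv3 h_cfu prz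
theorem h_famln : FAMLNStmt := famln h_cfl
theorem h_onen : ONENStmt :=
  onen cmpn irun (l2m irl2 mul) (l2d irl2 iso) l2t linb inok Pool.T1.All.h_lda Pool.T1.All.h_ldb
    twsk usmk
theorem h_semc : SEMCNStmt := semcn seman sembn
theorem h_gdun : GDUNStmt := gdun trf wap sembn h_semc seman
theorem h_bdpn : BDPNStmt := bdpn hyb izv trf wap seman sembn
theorem h_bd2n : BD2NStmt := bd2n trf wap seman sembn
theorem h_ldtn : LDTNStmt :=
  ldtn Pool.T1.BKDp.bkd Pool.T1.BKDp.fsq trf wap seman sembn h_semc izv vqb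
theorem h_ldpn : LDPNStmt := ldpn h_ldtn (lbq izv) h_gdun wap vqb trf seman
theorem h_rclz : RCLZStmt := RCLZ2.rclz rclqAll
theorem h_rcpn : RCPNStmt :=
  rcpn h_rclz trf seman basn h_gdun h_bdpn h_ldpn izv h_bd2n bdrn
theorem h_posn : POSNStmt := posn twsn (exdn prz) Pool.NF.H19.irrn twfn alln
theorem h_zern : ZERNStmt := zern alln sqsn trak

/-- NF: a positive proportion of all elliptic curves over every number field. -/
theorem h_main : MainN :=
  mainn h_keyn nst h_ncnt badn h_denn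
    (fun K _ _ => by
      obtain ⟨c, -, hc⟩ := h_famln K
      exact ⟨c, hc⟩)
    h_onen
    (fun K _ _ => recan h_rcpn usg (lsq lsa) qsl qsk vqb Pool.T1.All.h_tym cmp2 Iso25.iso2 lsr K)
    h_posn h_zern Pool.NF.H19.irrn

end Pool.NF.All
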