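import Pool.Agent.H29.NF.A
import Pool.Agent.H46.NF.Bx
import Pool.Agent.H71.T1.TWJK

/-!
# NF, row POSN: a positive proportion, from the parts
-/

set_option autoImplicit false

namespace Pool.NF

open Polynomial NumberField IsDedekindDomain Pool.HYP Pool.TOW Pool.AVS Pool.T1

theorem alln_mono {K : Type} [Field K] [NumberField K] {Y Z : ℝ} (h0 : 0 ≤ Y) (h : Y ≤ Z) :
    AllN K Y ⊆ AllN K Z := fun _ hf =>
  ⟨hf.1, hf.2.1, fun i hi => bx_mono (pow_le_pow_left₀ h0 h i) (hf.2.2 i hi)⟩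

theorem bx_mul {K : Type} [Field K] [NumberField K] {a b : 𝓞 K} {ρ κ : ℝ} (hρ : 0 ≤ ρ)
    (ha : a ∈ Bx K ρ) (hb : b ∈ Bx K κ) : a * b ∈ Bx K (ρ * κ) := by
  intro σ
  have : σ ((a * b : 𝓞 K) : K) = σ (a : K) * σ (b : K) := by
    rw [← map_mul]; rfl
  rw [this, norm_mul]
  exact mul_le_mul (ha σ) (hb σ) (norm_nonneg _) hρ

theorem famn_sub {K : Type} [Field K] [NumberField K] (D : DatN K) (Y : ℕ) :
    FamN D Y ⊆ AllN K (2 * Y : ℝ) := by
  intro f hf
  have hY : (0 : ℝ) ≤ Y := Nat.cast_nonneg Y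
  refine ⟨hf.1, hf.2.1, fun i hi => ?_⟩
  obtain ⟨h1, h2, h3⟩ := hf.2.2.1
  interval_cases i
  · have h4 : f.coeff 3 = 1 := by
      have := hf.1.coeff_natDegree
      rwa [hf.2.1] at this
    change f.coeff 3 ∈ _
    rw [h4, pow_zero]
    intro σ
    simp
  · change f.coeff 2 ∈ _
    exact bx_mono (by linarith) h1
  · change f.coeff 1 ∈ _
    exact bx_mono (by nlinarith [sq_nonneg (Y : ℝ)]) h2
  · change f.coeff 0 ∈ _
    have h5 : (Y : 𝓞 K) ^ 3 ∈ Bx K ((Y : ℝ) ^ 3) := by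
      intro σ
      have : σ (((Y : 𝓞 K) ^ 3 : 𝓞 K) : K) = (Y : ℂ) ^ 3 := by
        push_cast
        rw [map_pow, map_natCast]
      rw [this, norm_pow, Complex.norm_natCast]
    have h6 := bx_sub h3 h5
    have h7 : f.coeff 0 + (Y : 𝓞 K) ^ 3 - (Y : 𝓞 K) ^ 3 = f.coeff 0 := by ring
    rw [h7] at h6
    refine bx_mono ?_ h6
    have h8 : (0 : ℝ) ≤ (Y : ℝ) ^ 3 := by positivity
    have h9 : (2 * Y : ℝ) ^ 3 = 8 * (Y : ℝ) ^ 3 := by ring
    rw [h9]
    linarith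

theorem posn_core (K : Type) [Field K] [NumberField K] (hTWS : TWSNStmt) (hEXD : EXDNStmt)
    (hIRR : IRRNStmt) (hTWF : TWFNStmt) (hALL : ALLNStmt) (A Ram : Finset (HeightOneSpectrum (𝓞 K)))
    (hden : DenN K A) (hbadn : BadN K) (cF : ℝ) (hF : FamLN K cF) (hone : OneN K Ram) :
    PosN K := by
  classical
  obtain ⟨B, hB⟩ := hTWS K
  have h6 : Ideal.span {(6 : 𝓞 K)} ≠ ⊥ := by
    rw [Ne, Ideal.span_singleton_eq_bot]
    norm_num
  have hZfin := Ideal.finite_factors h6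
  set Z : Finset (HeightOneSpectrum (𝓞 K)) := hZfin.toFinset with hZ
  have hZ' : ∀ P : HeightOneSpectrum (𝓞 K), (2 : 𝓞 K) ∈ P.asIdeal ∨ (3 : 𝓞 K) ∈ P.asIdeal →
      P ∈ Z := by
    intro P hP
    rw [hZ, Set.Finite.mem_toFinset, Set.mem_ofPred_eq, Ideal.dvd_iff_le,
      Ideal.span_singleton_le_iff_mem]
    rcases hP with h | h
    · have := Ideal.mul_mem_left P.asIdeal 3 h
      norm_num at this
      exact this
    · have := Ideal.mul_mem_left P.asIdeal 2 h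
      norm_num at this
      exact this
  set T' : Finset (HeightOneSpectrum (𝓞 K)) := A ∪ (Ram ∪ (B ∪ Z)) with hT'
  have hAT : A ⊆ T' := fun x hx => by rw [hT']; exact Finset.mem_union_left _ hx
  have hRT : Ram ⊆ T' := fun x hx => by
    rw [hT']; exact Finset.mem_union_right _ (Finset.mem_union_left _ hx)
  have hBT : B ⊆ T' := fun x hx => by
    rw [hT']
    exact Finset.mem_union_right _ (Finset.mem_union_right _ (Finset.mem_union_left _ hx))
  have hZT : Z ⊆ T' := fun x hx => by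
    rw [hT']
    exact Finset.mem_union_right _ (Finset.mem_union_right _ (Finset.mem_union_right _ hx))
  obtain ⟨k₀, b, hbad⟩ := hbadn T'
  obtain ⟨D, hD, hDT, hcard, hb⟩ := hEXD K T' (fun P hP => hZT (hZ' P hP)) k₀ (b + 6 * k₀)
  obtain ⟨Y₁, h1⟩ := hbad D hD hDT hcard.ge (fun P hP => by
    have := hb P hP
    rw [hcard]
    constructor <;> omega)
  obtain ⟨Y₂, h2⟩ := hden D hD (by rw [hDT]; exact hAT)
  obtain ⟨Y₃, h3⟩ := hF D hD
  obtain ⟨E, hE1, hE⟩ := hB T' hBT (fun P hP => hZT (hZ' P (Or.inl hP))) D.T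
    (by rw [← hDT]; exact hD.1)
  choose! dS hdS1 hdS2 using hE
  obtain ⟨c, C, hc, hC, hall⟩ := hALL K
  set n : ℕ := 6 * dg K with hn
  set W : ℝ := (∏ P ∈ D.T, (Nm P : ℝ) ^ 3) * ∏ P ∈ D.T', (Nm P : ℝ) ^ 3 with hW
  have hW0 : 0 ≤ W := by positivity
  set k : ℝ := (D.T.powerset.card : ℝ) with hk
  have hk0 : 0 ≤ k := Nat.cast_nonneg _
  have hEr : (1 : ℝ) ≤ E := by exact_mod_cast hE1
  set M : ℝ := C * ((4 * E : ℝ) ^ n * (|cF| * (2 * k * W))) + 1 with hM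
  have hM0 : 0 < M := by positivity
  refine ⟨M⁻¹, by positivity, 2 * E * ((max (max Y₁ Y₂) (max Y₃ 1) : ℕ) : ℝ), fun Y hY => ?_⟩
  set Y' : ℕ := ⌊Y / (2 * E)⌋₊ with hY'
  have hE2 : (0 : ℝ) < 2 * E := by positivity
  have hYm : max (max Y₁ Y₂) (max Y₃ 1) ≤ Y' := by
    rw [hY']
    refine Nat.le_floor ?_
    rw [le_div_iff₀ hE2, mul_comm]
    exact hY
  have hy1 : Y₁ ≤ Y' := by omega
  have hy2 : Y₂ ≤ Y' := by omega
  have hy3 : Y₃ ≤ Y' := by omega
  have hy4 : 1 ≤ Y' := by omega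
  have hy4r : (1 : ℝ) ≤ Y' := by exact_mod_cast hy4
  have hYpos : 0 ≤ Y / (2 * E) := by
    by_contra hcon
    have : Y' = 0 := by
      rw [hY']
      exact Nat.floor_of_nonpos (by linarith)
    omega
  have hY0 : 0 ≤ Y := by
    have := mul_nonneg hYpos hE2.le
    rwa [div_mul_cancel₀ _ hE2.ne'] at this
  have hle : (2 * E * Y' : ℝ) ≤ Y := by
    have := Nat.floor_le hYpos
    rw [← hY', le_div_iff₀ hE2] at this
    linarith
  have hge : Y ≤ 4 * E * Y' := by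
    have := Nat.lt_floor_add_one (Y / (2 * E))
    rw [← hY', div_lt_iff₀ hE2] at this
    nlinarith
  have hYone : 1 ≤ Y := by
    refine le_trans ?_ hle
    nlinarith
  obtain ⟨hfin, hlo, hup, -, -⟩ := hall Y hYone
  have hposA : 0 < (AllN K Y).ncard := by
    have h5 : (0 : ℝ) < (AllN K Y).ncard := lt_of_lt_of_le (by positivity) hlo
    exact_mod_cast h5
  refine ⟨hfin, hposA, ?_⟩
  set Bs : Set (𝓞 K)[X] := {f ∈ AllN K Y | SelK (fk K f) ∧ Irreducible (fk K f)} with hBs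
  have hBfin : Bs.Finite := hfin.subset fun f hf => hf.1
  have hAfin : (FamN D Y').Finite := (h3 Y' hy3).1
  have hdT : ∀ S ⊆ D.T, TwiN D.T D.T' S (dS S) := fun S hS => by
    have := hdS2 S hS
    rwa [← hDT] at this
  have hkey : (FamN D Y').ncard ≤ 2 * D.T.powerset.card * Bs.ncard := by
    refine pigeon (FamN D Y') hAfin Bs hBfin D.T.powerset
      (fun S f => f.scaleRoots (dS S)) ?_ {f | Bad K D.T f} {f | ¬ Smooth f}
      (h1 Y' hy1) (h2 Y' hy2) ?_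
    · intro S hS
      exact twjk (𝓞 K) (dS S) (hdT S (Finset.mem_powerset.1 hS)).1.1
    · intro f hf hnb hns
      have hsm : Smooth f := by
        by_contra hcon
        exact hns hcon
      obtain ⟨S, hS, hsel⟩ := hone D Y' hD hy4 (by rw [hDT]; exact hRT) f hf hsm hnb
      have hd2 := hdT S hS
      have hirr := hIRR K D Y' hD f hf
      refine ⟨S, Finset.mem_powerset.2 hS, ?_, hsel _ hd2, ?_⟩
      · exact alln_mono (by positivity) hle (hTWF K D Y' E (dS S) hE1 (hdS1 S hS) f hf)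
      · exact irr_scale hd2.1.1 hf.1 hirr
  have hFW := (h3 Y' hy3).2
  have hkr : ((FamN D Y').ncard : ℝ) ≤ 2 * k * Bs.ncard := by
    rw [hk]
    exact_mod_cast hkey
  have h7 : (Y' : ℝ) ^ n ≤ |cF| * (2 * k * W) * Bs.ncard := by
    calc (Y' : ℝ) ^ n ≤ cF * ((FamN D Y').ncard * (∏ P ∈ D.T, (Nm P : ℝ) ^ 3) *
          ∏ P ∈ D.T', (Nm P : ℝ) ^ 3) := hFW
      _ = cF * ((FamN D Y').ncard * W) := by rw [hW]; ring
      _ ≤ |cF| * ((FamN D Y').ncard * W) :=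
          mul_le_mul_of_nonneg_right (le_abs_self _) (by positivity)
      _ ≤ |cF| * ((2 * k * Bs.ncard) * W) :=
          mul_le_mul_of_nonneg_left (mul_le_mul_of_nonneg_right hkr hW0) (abs_nonneg _)
      _ = _ := by ring
  have h8 : ((AllN K Y).ncard : ℝ) ≤ M * Bs.ncard := by
    calc ((AllN K Y).ncard : ℝ) ≤ C * Y ^ n := hup
      _ ≤ C * (4 * E * Y') ^ n :=
          mul_le_mul_of_nonneg_left (pow_le_pow_left₀ hY0 hge n) hC.le
      _ = C * ((4 * E : ℝ) ^ n * (Y' : ℝ) ^ n) := by rw [mul_pow]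
      _ ≤ C * ((4 * E : ℝ) ^ n * (|cF| * (2 * k * W) * Bs.ncard)) :=
          mul_le_mul_of_nonneg_left (mul_le_mul_of_nonneg_left h7 (by positivity)) hC.le
      _ = C * ((4 * E : ℝ) ^ n * (|cF| * (2 * k * W))) * Bs.ncard := by ring
      _ ≤ M * Bs.ncard := mul_le_mul_of_nonneg_right (by rw [hM]; linarith) (Nat.cast_nonneg _)
  rw [inv_mul_le_iff₀ hM0]
  exact h8

theorem posn (hTWS : TWSNStmt) (hEXD : EXDNStmt) (hIRR : IRRNStmt) (hTWF : TWFNStmt)
    (hALL : ALLNStmt) : POSNStmt := by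
  intro K _ _ hden hbad hF hone
  obtain ⟨A, hA⟩ := hden
  obtain ⟨c, hc⟩ := hF
  obtain ⟨Ram, hR⟩ := hone
  exact posn_core K hTWS hEXD hIRR hTWF hALL A Ram hA hbad c hc hR

end Pool.NF
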